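import Pool.Agent.H664.EX.Stm2

/-! Project EX (helper664), job R2B (helper233): a rank two lattice, second case. -/

set_option autoImplicit false

namespace Pool.Agent.H233.EX

open MvPolynomial Pool.Agent.Q72.EG Pool.Agent.H664.FH Pool.Agent.H664.EX
open scoped IntermediateField.algebraAdjoinAdjoin

section cl

variable {E : Type} [Field E] [Algebra ℂ E]

/-- the field of all elements which are algebraic over `ℂ(A)`, as a closure operator -/
noncomputable abbrev cl (A : Set E) : Set E := (AlgebraicIndependent.matroid ℂ E).closure A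

theorem al_iff (A : Set E) (f : E) : Al A f ↔ f ∈ cl A := by
  unfold cl
  rw [AlgebraicIndependent.matroid_closure_eq, SetLike.mem_coe, Subalgebra.mem_algebraicClosure]
  exact (IsFractionRing.isAlgebraic_iff (Algebra.adjoin ℂ A) (IntermediateField.adjoin ℂ A) E).symm

theorem al_coe (F : IntermediateField ℂ E) (A : Set F) (f : F) :
    Al A f ↔ Al ((fun a : F => (a : E)) '' A) (f : E) := by
  have h : (IntermediateField.adjoin ℂ A).map F.val =
      IntermediateField.adjoin ℂ ((fun a : F => (a : E)) '' A) := by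
    rw [IntermediateField.adjoin_map]
    rfl
  let e : IntermediateField.adjoin ℂ A ≃ₐ[ℂ]
      IntermediateField.adjoin ℂ ((fun a : F => (a : E)) '' A) :=
    (IntermediateField.equivMap _ F.val).trans (IntermediateField.equivOfEq h)
  exact (isAlgebraic_ringHom_iff_of_comp_eq e.toRingEquiv (F.val : F →+* E)
    Subtype.val_injective (by ext; rfl)).symm

theorem cl_mono {A B : Set E} (h : A ⊆ B) : cl A ⊆ cl B :=
  Matroid.closure_subset_closure _ h

theorem sub_cl (A : Set E) : A ⊆ cl A :=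
  Matroid.subset_closure _ _ (Set.subset_univ _)

theorem cl_sub {A B : Set E} (h : A ⊆ cl B) : cl A ⊆ cl B := by
  have := Matroid.closure_subset_closure (AlgebraicIndependent.matroid ℂ E) h
  rwa [Matroid.closure_closure] at this

theorem exch {A : Set E} {e f : E} (he : e ∉ cl A) (hef : e ∈ cl (insert f A)) :
    f ∈ cl (insert e A) := Matroid.mem_closure_insert he hef

theorem cl_empty {f : E} (hf : f ∈ cl (∅ : Set E)) : ∃ c : ℂ, f = algebraMap ℂ E c := by
  rw [← al_iff] at hf
  have h1 : IsAlgebraic ℂ f := by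
    have h2 : (IntermediateField.adjoin ℂ (∅ : Set E)) = ⊥ := IntermediateField.adjoin_empty ℂ E
    have hf' : IsAlgebraic (IntermediateField.adjoin ℂ (∅ : Set E)) f := hf
    rw [h2] at hf'
    have : Algebra.IsAlgebraic ℂ (⊥ : IntermediateField ℂ E) := inferInstance
    exact hf'.restrictScalars ℂ
  have h2 : IsIntegral ℂ f := h1.isIntegral
  obtain ⟨c, hc⟩ := minpoly.mem_range_of_degree_eq_one ℂ f
    (IsAlgClosed.degree_eq_one_of_irreducible ℂ (minpoly.irreducible h2))
  exact ⟨c, hc.symm⟩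

end cl

/-- adding a transcendental coordinate -/
theorem pt_trans {E : Type} [Field E] [Algebra ℂ E] {σ τ : Type} {F : IntermediateField ℂ E}
    {ξ : σ → F} {p : σ → ℂ} (hp : p ∈ Pt ξ) {w : E} (hw : Transcendental F w) (W : ℂ)
    (η : τ → E) (q : τ → ℂ) (ι : τ → Option σ)
    (h1 : ∀ t, η t = (ι t).elim w (fun s => (ξ s : E))) (h2 : ∀ t, q t = (ι t).elim W p) :
    q ∈ Pt η := by
  intro g hg
  let φ : MvPolynomial τ ℂ →ₐ[ℂ] Polynomial (MvPolynomial σ ℂ) :=
    aeval (fun t => (ι t).elim Polynomial.X (fun s => Polynomial.C (X s)))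
  have e1 : ∀ g : MvPolynomial τ ℂ, aeval η g =
      Polynomial.aeval w ((φ g).map (aeval ξ : MvPolynomial σ ℂ →ₐ[ℂ] F).toRingHom) := by
    intro g
    induction g using MvPolynomial.induction_on with
    | C c =>
      rw [aeval_C, MvPolynomial.algHom_C]
      rw [Polynomial.algebraMap_apply, Polynomial.map_C, Polynomial.aeval_C]
      simp [MvPolynomial.algebraMap_eq]
    | add a b ha hb => simp only [map_add, Polynomial.map_add, ha, hb]
    | mul_X a t ha =>
      rw [map_mul, map_mul, Polynomial.map_mul, map_mul, ha, aeval_X, aeval_X, h1]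
      congr 1
      rcases ι t with _ | s
      · simp
      · simp
  have e2 : ∀ g : MvPolynomial τ ℂ, eval q g =
      Polynomial.eval W ((φ g).map (eval p)) := by
    intro g
    induction g using MvPolynomial.induction_on with
    | C c =>
      rw [eval_C, MvPolynomial.algHom_C]
      rw [Polynomial.algebraMap_apply, Polynomial.map_C, Polynomial.eval_C]
      simp [MvPolynomial.algebraMap_eq]
    | add a b ha hb => simp only [map_add, Polynomial.map_add, Polynomial.eval_add, ha, hb]
    | mul_X a t ha =>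
      rw [map_mul, map_mul, Polynomial.map_mul, Polynomial.eval_mul, ha, eval_X, aeval_X, h2]
      congr 1
      rcases ι t with _ | s
      · simp
      · simp
  rw [e1] at hg
  have h3 : (φ g).map (aeval ξ : MvPolynomial σ ℂ →ₐ[ℂ] F).toRingHom = 0 := by
    by_contra hc
    exact hw ⟨_, hc, hg⟩
  rw [e2]
  have h4 : (φ g).map (eval p) = 0 := by
    ext i
    rw [Polynomial.coeff_map, Polynomial.coeff_zero]
    apply hp
    have := congrArg (fun f => Polynomial.coeff f i) h3
    simpa [Polynomial.coeff_map] using this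
  rw [h4, Polynomial.eval_zero]

section main

variable {E : Type} [Field E] [Algebra ℂ E]

theorem x_notMem (G : Cv 3 E) (hA : AddFree G.P) (i : Fin 3) : G.x i ∉ cl (∅ : Set E) := by
  intro h
  obtain ⟨c, hc⟩ := cl_empty h
  have h1 : aeval G.x ((∑ j, C (((Pi.single i 1 : Fin 3 → ℤ) j : ℤ) : ℂ) * X j) - C c) = 0 := by
    rw [map_sub, map_sum, aeval_C, ← hc]
    simp only [map_mul, aeval_X, aeval_C]
    rw [Finset.sum_eq_single i]
    · simp
    · intro j _ hj
      simp [Pi.single_eq_of_ne hj]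
    · simp
  exact hA _ (by simp) c ((G.hx _).1 h1)

theorem x1_mem (G : Cv 3 E) (hA : AddFree G.P) (h2 : ¬ Al {G.x 0, G.x 1} (G.x 2)) :
    G.x 1 ∈ cl ({G.x 0} : Set E) := by
  by_contra h1
  rw [al_iff] at h2
  have h0 := x_notMem G hA 0
  have i0 : (AlgebraicIndependent.matroid ℂ E).Indep (∅ : Set E) := Matroid.empty_indep _
  have i1 := (i0.notMem_closure_iff (Set.mem_univ _)).1 h0
  have i1' : (AlgebraicIndependent.matroid ℂ E).Indep ({G.x 0} : Set E) := by simpa using i1.1
  have i2 := (i1'.notMem_closure_iff (Set.mem_univ _)).1 h1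
  have h2' : G.x 2 ∉ cl (insert (G.x 1) {G.x 0}) := by rwa [Set.pair_comm]
  have i3 := (i2.1.notMem_closure_iff (Set.mem_univ _)).1 h2'
  have n1 : G.x 1 ≠ G.x 0 := i2.2
  have n2 : G.x 2 ≠ G.x 1 ∧ G.x 2 ≠ G.x 0 := by
    have := i3.2
    simpa [not_or] using this
  have h4 := AlgebraicIndependent.matroid_indep_iff.1 i3.1
  have h5 : AlgebraicIndependent ℂ G.x := by
    refine h4.comp (fun i : Fin 3 => ⟨G.x i, ?_⟩) ?_
    · fin_cases i <;> simp
    · intro i j hij
      have hij' : G.x i = G.x j := congrArg Subtype.val hij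
      fin_cases i <;> fin_cases j <;> simp_all
  exact G.hP.ne_zero (h5.eq_zero_of_aeval_eq_zero G.P ((G.hx _).2 dvd_rfl))

theorem exists_P2 (G : Cv 3 E) (h1 : G.x 1 ∈ cl ({G.x 0} : Set E)) :
    ∃ P₂ : MvPolynomial (Fin 2) ℂ, rename Fin.castSucc P₂ = G.P := by
  have hni : ¬ AlgebraicIndependent ℂ ![G.x 0, G.x 1] := by
    intro h
    have h2 := h.to_subtype_range
    have h3 : Set.range ![G.x 0, G.x 1] = insert (G.x 1) {G.x 0} := by
      ext a
      simp [or_comm]
    have hne : G.x 1 ≠ G.x 0 := by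
      intro h4
      have := h.injective (a₁ := 1) (a₂ := 0) (by simpa using h4)
      simp at this
    have h4 : (AlgebraicIndependent.matroid ℂ E).Indep (insert (G.x 1) {G.x 0}) := by
      rw [← h3]
      exact AlgebraicIndependent.matroid_indep_iff.2 h2
    have h5 : (AlgebraicIndependent.matroid ℂ E).Indep ({G.x 0} : Set E) :=
      h4.subset (Set.subset_insert _ _)
    exact ((h5.notMem_closure_iff (Set.mem_univ _)).2 ⟨h4, hne⟩) h1
  rw [algebraicIndependent_iff] at hni
  push Not at hni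
  obtain ⟨Q, hQ, hQ0⟩ := hni
  have hd : G.P ∣ rename Fin.castSucc Q := by
    rw [← G.hx, aeval_rename]
    have e : G.x ∘ (Fin.castSucc : Fin 2 → Fin 3) = ![G.x 0, G.x 1] := by
      funext i
      fin_cases i <;> rfl
    rw [e]
    exact hQ
  obtain ⟨R, hR⟩ := hd
  have hr0 : rename (Fin.castSucc : Fin 2 → Fin 3) Q ≠ 0 := by
    intro h
    exact hQ0 (rename_injective _ (Fin.castSucc_injective 2) (by rw [h, map_zero]))
  have hR0 : R ≠ 0 := by
    rintro rfl
    rw [mul_zero] at hR
    exact hr0 hR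
  have h2 : (2 : Fin 3) ∉ (rename (Fin.castSucc : Fin 2 → Fin 3) Q).vars := by
    intro h
    obtain ⟨j, -, hj⟩ := mem_vars_rename _ _ h
    fin_cases j <;> simp at hj
  have h3 : degreeOf 2 (rename (Fin.castSucc : Fin 2 → Fin 3) Q) = 0 :=
    not_not.1 fun h => h2 (mem_vars_iff_degreeOf_ne_zero.2 h)
  rw [hR, degreeOf_mul_eq G.hP.ne_zero hR0] at h3
  have h4 : (2 : Fin 3) ∉ G.P.vars := fun h => mem_vars_iff_degreeOf_ne_zero.1 h (by omega)
  exact exists_rename_eq_of_vars_subset_range G.P Fin.castSucc (Fin.castSucc_injective 2) (by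
    intro i hi
    fin_cases i
    · exact ⟨0, rfl⟩
    · exact ⟨1, rfl⟩
    · exact absurd hi h4)

theorem kill_rename (Q : MvPolynomial (Fin 2) ℂ) :
    killCompl (Fin.castSucc_injective 2) (rename Fin.castSucc Q) = Q :=
  killCompl_rename_app _ _

theorem dvd_iff (P Q : MvPolynomial (Fin 2) ℂ) :
    rename (Fin.castSucc : Fin 2 → Fin 3) P ∣ rename Fin.castSucc Q ↔ P ∣ Q := by
  constructor
  · intro h
    have := map_dvd (killCompl (R := ℂ) (Fin.castSucc_injective 2)) h
    rwa [kill_rename, kill_rename] at this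
  · exact fun h => map_dvd _ h

theorem irr_P2 {P : MvPolynomial (Fin 2) ℂ}
    (h : Irreducible (rename (Fin.castSucc : Fin 2 → Fin 3) P)) : Irreducible P := by
  have : IsLocalHom (rename (Fin.castSucc : Fin 2 → Fin 3) :
      MvPolynomial (Fin 2) ℂ →ₐ[ℂ] MvPolynomial (Fin 3) ℂ) := by
    refine ⟨fun a ha => ?_⟩
    have := ha.map (killCompl (R := ℂ) (Fin.castSucc_injective 2))
    rwa [kill_rename] at this
  exact h.of_map

theorem addFree_P2 {P : MvPolynomial (Fin 2) ℂ}
    (h : AddFree (rename (Fin.castSucc : Fin 2 → Fin 3) P)) : AddFree P := by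
  intro m hm c hd
  refine h ![m 0, m 1, 0] ?_ c ?_
  · intro h0
    apply hm
    ext i
    fin_cases i
    · exact congrFun h0 0
    · exact congrFun h0 1
  · have := (map_dvd (rename (Fin.castSucc : Fin 2 → Fin 3)) hd)
    refine this.trans (Eq.dvd ?_)
    rw [map_sub, map_sum, rename_C, Fin.sum_univ_two, Fin.sum_univ_three]
    simp

end main

/-- JOB R2B -/
theorem r2b (h : S_curve2) : S_r2b := by
  intro E _ _ G h0 h1 h2 hx2 hA hM hrot
  have hx1 : G.x 1 ∈ cl ({G.x 0} : Set E) := x1_mem G hA hx2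
  obtain ⟨P₂, hP₂⟩ := exists_P2 G hx1
  have hirr : Irreducible P₂ := irr_P2 (by rw [hP₂]; exact G.hP)
  have hadd : AddFree P₂ := addFree_P2 (by rw [hP₂]; exact hA)
  -- the field of all elements which are algebraic over `ℂ(x)`
  set F : IntermediateField ℂ E :=
    (algebraicClosure (IntermediateField.adjoin ℂ (Set.range G.x)) E).restrictScalars ℂ with hF
  have memF : ∀ f : E, f ∈ F ↔ f ∈ cl (Set.range G.x) := by
    intro f
    rw [← al_iff, hF, IntermediateField.mem_restrictScalars, mem_algebraicClosure_iff]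
  have hxF : ∀ i, G.x i ∈ F := fun i => (memF _).2 (sub_cl _ ⟨i, rfl⟩)
  have hy0 : G.y 0 ∈ F := (memF _).2 ((al_iff _ _).1 (not_not.1 h0))
  have hy1 : G.y 1 ∈ F := (memF _).2 ((al_iff _ _).1 (not_not.1 h1))
  -- everything is algebraic over `ℂ(x_0, x_2)`
  have hcl : cl (Set.range G.x) ⊆ cl (insert (G.x 2) {G.x 0}) := by
    apply cl_sub
    rintro _ ⟨i, rfl⟩
    fin_cases i
    · exact sub_cl _ (by simp)
    · exact cl_mono (by simp) hx1
    · exact sub_cl _ (by simp)
  have key : ∀ f ∈ F, f ∉ cl ({G.x 0} : Set E) → ∀ g ∈ F, g ∈ cl (insert f {G.x 0}) := by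
    intro f hf hf' g hg
    have h3 := exch hf' (hcl ((memF f).1 hf))
    have h4 : cl (insert (G.x 2) {G.x 0}) ⊆ cl (insert f {G.x 0}) := by
      apply cl_sub
      intro a ha
      rcases ha with rfl | ha
      · exact h3
      · exact sub_cl _ (Set.mem_insert_of_mem _ ha)
    exact h4 (hcl ((memF g).1 hg))
  have hclx : cl ({G.x 0, G.x 1} : Set E) = cl {G.x 0} := by
    apply Set.Subset.antisymm
    · apply cl_sub
      intro a ha
      rcases ha with rfl | rfl
      · exact sub_cl _ rfl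
      · exact hx1
    · exact cl_mono (by simp)
  have hrangeF : (fun a : F => (a : E)) '' Set.range ![(⟨G.x 0, hxF 0⟩ : F), ⟨G.x 1, hxF 1⟩] =
      {G.x 0, G.x 1} := by
    simp [Set.image_insert_eq, Set.pair_comm]
  -- the curve
  let G₂ : Cv 2 F :=
    { P := P₂
      hP := hirr
      x := ![⟨G.x 0, hxF 0⟩, ⟨G.x 1, hxF 1⟩]
      y := ![⟨G.y 0, hy0⟩, ⟨G.y 1, hy1⟩]
      hx := by
        intro g
        rw [← dvd_iff, hP₂, ← G.hx, aeval_rename]
        have e : G.x ∘ (Fin.castSucc : Fin 2 → Fin 3) =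
            fun i => F.val (![⟨G.x 0, hxF 0⟩, ⟨G.x 1, hxF 1⟩] i) := by
          funext i
          fin_cases i <;> rfl
        rw [e, ← MvPolynomial.comp_aeval_apply]
        constructor
        · intro h3
          rw [h3, map_zero]
        · intro h3
          exact Subtype.val_injective h3
      hy := by
        intro l
        fin_cases l
        · exact fun h3 => G.hy 0 (congrArg Subtype.val h3)
        · exact fun h3 => G.hy 1 (congrArg Subtype.val h3)
      tr1 := by
        intro f g hf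
        have hf' : ¬ Al (Set.range ![(⟨G.x 0, hxF 0⟩ : F), ⟨G.x 1, hxF 1⟩]) f := hf
        rw [al_coe, hrangeF, al_iff, hclx] at hf'
        have h3 := key f f.2 hf' g g.2
        have h4 : Al (insert f (Set.range ![(⟨G.x 0, hxF 0⟩ : F), ⟨G.x 1, hxF 1⟩])) g := by
          rw [al_coe, Set.image_insert_eq, hrangeF, al_iff]
          exact cl_mono (by
            intro a ha
            rcases ha with rfl | rfl
            · simp
            · simp) h3
        exact h4 }
  have hT : ∀ i : Fin 2, G₂.T i ↔ ((G₂.y i : F) : E) ∉ cl ({G.x 0} : Set E) := by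
    intro i
    have h3 : ¬ G₂.T i ↔ Al (Set.range ![(⟨G.x 0, hxF 0⟩ : F), ⟨G.x 1, hxF 1⟩]) (G₂.y i) := not_not
    rw [al_coe, hrangeF, al_iff, hclx] at h3
    rw [← h3, not_not]
  have hex : ∃ i : Fin 2, G₂.T i := by
    by_contra hc
    push Not at hc
    apply hrot
    refine ⟨(al_iff _ _).2 hx1, (al_iff _ _).2 ?_, (al_iff _ _).2 ?_⟩
    · by_contra h3
      exact hc 0 ((hT 0).2 h3)
    · by_contra h3
      exact hc 1 ((hT 1).2 h3)
  have hM2 : ∀ m : Fin 2 → ℤ, m ≠ 0 → ∀ c : ℂ, ∏ j, G₂.y j ^ m j ≠ algebraMap ℂ F c := by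
    intro m hm c hc
    refine hM ![m 0, m 1, 0] ?_ c ?_
    · intro h3
      apply hm
      ext i
      fin_cases i
      · exact congrFun h3 0
      · exact congrFun h3 1
    · have h3 := congrArg (fun a : F => (a : E)) hc
      rw [Fin.prod_univ_two] at h3
      rw [Fin.prod_univ_three]
      have h4 : ((((⟨G.y 0, hy0⟩ : F) ^ m 0 * (⟨G.y 1, hy1⟩ : F) ^ m 1 : F) : E)) =
          G.y 0 ^ m 0 * G.y 1 ^ m 1 := by
        push_cast
        rfl
      have h5 : G.y 0 ^ m 0 * G.y 1 ^ m 1 = algebraMap ℂ E c := h4.symm.trans h3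
      simpa using h5
  have hQ : ∀ k ∈ ({⟨G.x 2, hxF 2⟩} : Finset F), Al (Set.range (Sum.elim G₂.x G₂.y)) k := by
    intro k hk
    rw [Finset.mem_singleton] at hk
    subst hk
    obtain ⟨i, hi⟩ := hex
    rw [hT] at hi
    rw [al_coe, al_iff]
    have h3 := key _ (G₂.y i).2 hi (G.x 2) (hxF 2)
    refine cl_mono ?_ h3
    intro a ha
    rcases ha with rfl | rfl
    · exact ⟨G₂.y i, ⟨Sum.inr i, rfl⟩, rfl⟩
    · exact ⟨G₂.x 0, ⟨Sum.inl 0, rfl⟩, rfl⟩
  obtain ⟨z, q, hz⟩ := h F G₂ {⟨G.x 2, hxF 2⟩} hadd hM2 hex hQ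
  -- the point
  have hy2 : Transcendental F (G.y 2) := by
    intro h3
    apply h2
    have h4 : G.y 2 ∈ algebraicClosure (IntermediateField.adjoin ℂ (Set.range G.x)) E := by
      have h5 : IsAlgebraic
          (algebraicClosure (IntermediateField.adjoin ℂ (Set.range G.x)) E) (G.y 2) := h3
      have h6 := algebraicClosure.algebraicClosure_eq_bot
        (IntermediateField.adjoin ℂ (Set.range G.x)) E
      have h7 := mem_algebraicClosure_iff.2 h5
      rw [h6, IntermediateField.mem_bot] at h7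
      obtain ⟨a, ha⟩ := h7
      rw [← ha]
      exact a.2
    exact mem_algebraicClosure_iff.1 h4
  refine ⟨![z 0, z 1, q ⟨G.x 2, hxF 2⟩], ?_⟩
  refine pt_trans hz hy2 (Complex.exp (q ⟨G.x 2, hxF 2⟩)) _ _
    (Sum.elim ![some (Sum.inl (Sum.inl 0)), some (Sum.inl (Sum.inl 1)),
      some (Sum.inr ⟨⟨G.x 2, hxF 2⟩, Finset.mem_singleton_self _⟩)]
      ![some (Sum.inl (Sum.inr 0)), some (Sum.inl (Sum.inr 1)), none]) ?_ ?_
  · rintro (i | i)
    · fin_cases i <;> rfl
    · fin_cases i <;> rfl
  · rintro (i | i)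
    · fin_cases i <;> rfl
    · fin_cases i <;> rfl

end Pool.Agent.H233.EX
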